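import Pool.Agent.H68.GCL.Targets

/-!
MP_d2582e_lc, board gcl, row DEW: width of decorated terms.
-/

namespace Pool.Agent.H99.GCL

open Pool.Agent.H76.SW Pool.Agent.H68.GCL

theorem dew_two (h1 : U_d6_small) {m : ℕ} (src tgt : Fin m → Fin 2) (k : ℕ) (hk : 1 ≤ k) :
    TreeWidthLE (torso src tgt) k := by
  refine h1 (V := Fin 2) (torso src tgt) k ?_
  rw [Fintype.card_fin]
  omega

theorem dew_opt (h1 : U_d6_small) {A : Type} (P : Prop) (a : A) (k : ℕ) (hk : 1 ≤ k) :
    (opt P a).Width k := by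
  unfold opt
  by_cases h : P
  · rw [if_pos h]
    exact trivial
  · rw [if_neg h]
    exact ⟨dew_two h1 _ _ k hk, fun i => i.elim0⟩

theorem dew_torso (I : Type) [Finite I] {n m : ℕ} (src tgt : Fin m → Fin n) :
    torso (dSrc I src) (dSrc I tgt) = torso src tgt := by
  apply SimpleGraph.ext
  funext x y
  apply propext
  constructor
  · rintro ⟨hxy, i, hi⟩
    refine ⟨hxy, ?_⟩
    have key : ∀ z : Fin m ⊕ (I × Fin n), ∀ x y : Fin n, x ≠ y → nSrc src z = x → nSrc tgt z = y →
        ∃ j : Fin m, src j = x ∧ tgt j = y := by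
      intro z x y hxy h2 h3
      rcases z with j | p
      · exact ⟨j, h2, h3⟩
      · exact absurd ((show p.2 = x from h2).symm.trans (show p.2 = y from h3)) hxy
    rcases hi with ⟨h2, h3⟩ | ⟨h2, h3⟩
    · obtain ⟨j, hj⟩ := key _ x y hxy h2 h3
      exact ⟨j, Or.inl hj⟩
    · obtain ⟨j, hj⟩ := key _ y x hxy.symm h2 h3
      exact ⟨j, Or.inr hj⟩
  · rintro ⟨hxy, j, hj⟩
    refine ⟨hxy, Finite.equivFin (Fin m ⊕ (I × Fin n)) (Sum.inl j), ?_⟩
    unfold dSrc
    rw [Equiv.symm_apply_apply]
    exact hj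

theorem pf_DEW (h1 : U_d6_small) : T_DEW := by
  intro A V I _ F k hk T
  induction T with
  | edge a =>
    intro h _
    refine ⟨dew_two h1 _ _ k hk, fun i => ?_⟩
    show (eCh F a h ((Finite.equivFin (Option (I × Bool × Bool))).symm i)).Width k
    cases (Finite.equivFin (Option (I × Bool × Bool))).symm i with
    | none => exact trivial
    | some x => exact dew_opt h1 _ _ k hk
  | node n m src tgt ch p q ih =>
    intro h hT
    refine ⟨?_, fun i => ?_⟩
    · rw [dew_torso]
      exact hT.1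
    · show (Sum.elim (fun i => decT F (ch i) (fun y => h (Sum.inr ⟨i, y⟩)))
          (nLoop F fun v => h (Sum.inl v))
            ((Finite.equivFin (Fin m ⊕ (I × Fin n))).symm i)).Width k
      cases (Finite.equivFin (Fin m ⊕ (I × Fin n))).symm i with
      | inl j => exact ih j _ (hT.2 j)
      | inr x => exact dew_opt h1 _ _ k hk

end Pool.Agent.H99.GCL
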