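import Pool.Agent.H68.GCL.Targets

/-!
MP_d2582e_lc, board gcl, row TRQ: terms as queries.
-/

namespace Pool.Agent.H99.GCL

open Pool.Agent.H76.SW Pool.Agent.H68.GCL

theorem let_accepts {L : Type} (l : L) : (letA l).accepts = {[l]} := by
  ext w
  rw [NFA.mem_accepts]
  change _ ↔ w = [l]
  constructor
  · rintro ⟨y, hy1, hy⟩
    have hy1' : y = 1 := hy1
    subst hy1'
    cases w with
    | nil =>
      rw [NFA.evalFrom_nil] at hy
      exact absurd (show (1 : Fin 2) = 0 from hy) (by decide)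
    | cons l1 w =>
      rw [NFA.evalFrom_cons, NFA.mem_evalFrom_iff_exists] at hy
      obtain ⟨t, ht, hy⟩ := hy
      rw [NFA.mem_stepSet] at ht
      obtain ⟨z, -, -, hl, ht1⟩ := ht
      subst ht1
      cases w with
      | nil => rw [hl]
      | cons l' w =>
        rw [NFA.evalFrom_cons, NFA.mem_evalFrom_iff_exists] at hy
        obtain ⟨t, ht, -⟩ := hy
        rw [NFA.mem_stepSet] at ht
        obtain ⟨z, hz, hz0, -⟩ := ht
        rw [Set.mem_singleton_iff.1 hz] at hz0
        exact absurd hz0 (by decide)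
  · rintro rfl
    refine ⟨1, rfl, ?_⟩
    rw [NFA.evalFrom_cons, NFA.evalFrom_nil, NFA.mem_stepSet]
    exact ⟨0, rfl, rfl, rfl, rfl⟩

theorem let_path {L V : Type} (F : V → L → V → Prop) (l : L × Bool) (u v : V) :
    (∃ w ∈ (letA l).accepts, Path F u w v) ↔ Step F u l v := by
  rw [let_accepts]
  constructor
  · rintro ⟨w, hw, hp⟩
    rw [show w = [l] from hw] at hp
    cases hp with
    | cons _ u1 _ _ _ hs hp' =>
    cases hp'
    exact hs
  · intro h
    exact ⟨_, rfl, Path.cons _ v _ _ _ h (Path.nil _)⟩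

theorem symB_holds {A V : Type} {n m : ℕ} (src tgt : Fin m → Fin n) (E : V → A → V → Prop)
    (R : Fin m → V → V → Prop) (μ : Fin n → V) :
    (symB A src tgt).Holds E R μ ↔ ∀ i, R i (μ (src i)) (μ (tgt i)) := by
  constructor
  · intro h i
    exact (let_path (ext E R) (Sum.inr i, true) (μ (src i)) (μ (tgt i))).1 (h i)
  · intro h i
    exact (let_path (ext E R) (Sum.inr i, true) (μ (src i)) (μ (tgt i))).2 (h i)

theorem edgB_holds {A V : Type} (a : A) (E : V → A → V → Prop) (R : Fin 0 → V → V → Prop)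
    (μ : Fin 2 → V) : (edgB a).Holds E R μ ↔ E (μ 0) a (μ 1) := by
  constructor
  · intro h
    exact (let_path (ext E R) (Sum.inl a, true) (μ 0) (μ 1)).1 (h (0 : Fin 1))
  · intro h i
    exact (let_path (ext E R) (Sum.inl a, true) (μ 0) (μ 1)).2 h

theorem toRQ_sat {A : Type} (T : Term A) : ∀ (V : Type) (E : V → A → V → Prop) (u v : V),
    (toRQ T).Sat E u v ↔ T.Sat E u v := by
  induction T with
  | edge a =>
    intro V E u v
    constructor
    · rintro ⟨μ, hμ, h0, h1⟩
      have h2 := (edgB_holds a E _ μ).1 hμ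
      change E u a v
      have h0' : μ (0 : Fin 2) = u := h0
      have h1' : μ (1 : Fin 2) = v := h1
      rw [h0', h1'] at h2
      exact h2
    · intro h
      refine ⟨fun x : Fin 2 => if x = 0 then u else v, ?_, ?_, ?_⟩
      · exact (edgB_holds a E _ _).2 h
      · exact if_pos rfl
      · exact if_neg (by decide)
  | node n m src tgt ch p q ih =>
    intro V E u v
    constructor
    · rintro ⟨μ, hμ, h0, h1⟩
      refine ⟨μ, fun i => ?_, h0, h1⟩
      exact (ih i V E _ _).1 ((symB_holds src tgt E (fun i => (toRQ (ch i)).Sat E) μ).1 hμ i)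
    · rintro ⟨μ, hμ, h0, h1⟩
      refine ⟨μ, ?_, h0, h1⟩
      exact (symB_holds src tgt E (fun i => (toRQ (ch i)).Sat E) μ).2
        fun i => (ih i V E _ _).2 (hμ i)

theorem toRQ_width (h1 : U_d6_small) {A : Type} (T : Term A) : ∀ k : ℕ, 1 ≤ k → T.Width k →
    (toRQ T).Width k := by
  induction T with
  | edge a =>
    intro k hk _
    refine ⟨?_, fun j => j.elim0⟩
    refine h1 (V := Fin 2) (edgB a).graph k ?_
    rw [Fintype.card_fin]
    omega
  | node n m src tgt ch p q ih =>
    intro k hk h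
    exact ⟨h.1, fun j => ih j k hk (h.2 j)⟩

theorem pf_TRQ (h1 : U_d6_small) : T_TRQ := by
  intro A
  refine ⟨fun T V E u v => toRQ_sat T V E u v, fun T k hk hT => toRQ_width h1 T k hk hT, ?_⟩
  intro n m r src tgt ch out
  refine ⟨fun V E z => ?_, fun k hk ht hc => ?_⟩
  · constructor
    · rintro ⟨μ, hμ, hz⟩
      refine ⟨μ, fun i => ?_, hz⟩
      exact (toRQ_sat (ch i) V E _ _).1
        ((symB_holds src tgt E (fun i => (toRQ (ch i)).Sat E) μ).1 hμ i)
    · rintro ⟨μ, hμ, hz⟩
      refine ⟨μ, ?_, hz⟩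
      exact (symB_holds src tgt E (fun i => (toRQ (ch i)).Sat E) μ).2
        fun i => (toRQ_sat (ch i) V E _ _).2 (hμ i)
  · exact ⟨ht, fun j => toRQ_width h1 (ch j) k hk (hc j)⟩

end Pool.Agent.H99.GCL
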